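import Mathlib
import Pool.Agent.Helper943.LM.Aut

/-!
# A coset automatic pair that is not strongly coset automatic

`G` is the integral Heisenberg group and `H` its centre, an infinite cyclic group.  The quotient
`G/H` is `ℤ²`, so `(G, H)` is coset automatic.  A strong automatic coset system would give
a section of `G → G/H` whose cocycle takes values in a finite set, and then the commutator
`[x^n, y^n] = z^(n^2)` would be a product of `O(n)` elements of a finite subset of `H`.
-/

namespace Pool.Agent.Results.MP_6b1724_al.HeisenbergCentre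

section defs

variable {G : Type} [Group G]

/-- The letters `A = X ∪ X⁻¹`. -/
abbrev Letter (X : Finset G) : Type := {g : G // g ∈ X ∨ g⁻¹ ∈ X}

/-- The element of `G` represented by a word. -/
def val {X : Finset G} (w : List (Letter X)) : G := (w.map Subtype.val).prod

/-- `Hg = Hk`. -/
def SameCoset (H : Subgroup G) (g k : G) : Prop := g * k⁻¹ ∈ H

/-- The pair of words `(v, w)` read synchronously, the shorter one padded at the end. -/
def pad {α : Type} (v w : List α) : List (Option α × Option α) :=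
  (v.map some ++ List.replicate (w.length - v.length) none).zip
    (w.map some ++ List.replicate (v.length - w.length) none)

/-- There is an automatic coset system for `H` in `G` with respect to `X`. -/
def CosetAutomatic (X : Finset G) (H : Subgroup G) : Prop :=
  ∃ (σ : Type) (_ : Fintype σ) (W : DFA (Letter X) σ),
    (∀ g : G, ∃ w ∈ W.accepts, SameCoset H (val w) g) ∧
    ∀ a : Option (Letter X), ∃ (τ : Type) (_ : Fintype τ)
      (M : DFA (Option (Letter X) × Option (Letter X)) τ),
      ∀ v w : List (Letter X), pad v w ∈ M.accepts ↔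
        v ∈ W.accepts ∧ w ∈ W.accepts ∧ SameCoset H (val v * val a.toList) (val w)

/-- `d_Γ(g, k) ≤ n` in the Cayley graph of `G` with respect to `X`. -/
def Near (X : Finset G) (n : ℕ) (g k : G) : Prop :=
  ∃ l : List (Letter X), l.length ≤ n ∧ g * val l = k

/-- There is a strong automatic coset system for `H` in `G` with respect to `X`. -/
def StronglyCosetAutomatic (X : Finset G) (H : Subgroup G) : Prop :=
  ∃ (σ : Type) (_ : Fintype σ) (W : DFA (Letter X) σ) (K : ℕ),
    (∀ g : G, ∃ w ∈ W.accepts, SameCoset H (val w) g) ∧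
    ∀ v ∈ W.accepts, ∀ w ∈ W.accepts, ∀ h ∈ H, Near X 1 (val v) (h * val w) →
      ∀ i : ℕ, Near X K (val (v.take i)) (h * val (w.take i))

end defs

/-! ### The Heisenberg group -/

/-- The integral Heisenberg group. -/
@[ext] structure Heis where
  /-- first coordinate -/
  a : ℤ
  /-- second coordinate -/
  b : ℤ
  /-- central coordinate -/
  c : ℤ
  deriving DecidableEq

namespace Heis

instance : Mul Heis := ⟨fun g h => ⟨g.a + h.a, g.b + h.b, g.c + h.c + g.a * h.b⟩⟩
instance : One Heis := ⟨⟨0, 0, 0⟩⟩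
instance : Inv Heis := ⟨fun g => ⟨-g.a, -g.b, -g.c + g.a * g.b⟩⟩

@[simp] theorem mul_a (g h : Heis) : (g * h).a = g.a + h.a := rfl
@[simp] theorem mul_b (g h : Heis) : (g * h).b = g.b + h.b := rfl
@[simp] theorem mul_c (g h : Heis) : (g * h).c = g.c + h.c + g.a * h.b := rfl
@[simp] theorem one_a : (1 : Heis).a = 0 := rfl
@[simp] theorem one_b : (1 : Heis).b = 0 := rfl
@[simp] theorem one_c : (1 : Heis).c = 0 := rfl
@[simp] theorem inv_a (g : Heis) : (g⁻¹).a = -g.a := rfl
@[simp] theorem inv_b (g : Heis) : (g⁻¹).b = -g.b := rfl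
@[simp] theorem inv_c (g : Heis) : (g⁻¹).c = -g.c + g.a * g.b := rfl

instance : Group Heis :=
  Group.ofLeftAxioms
    (by intro g h k; ext <;> simp <;> ring)
    (by intro g; ext <;> simp)
    (by intro g; ext <;> simp)

/-- The subgroup `{(0, 0, c)}`. -/
def Z : Subgroup Heis where
  carrier := {g | g.a = 0 ∧ g.b = 0}
  mul_mem' := by
    rintro g h ⟨h1, h2⟩ ⟨h3, h4⟩
    exact ⟨by simp [h1, h3], by simp [h2, h4]⟩
  one_mem' := ⟨rfl, rfl⟩
  inv_mem' := by
    rintro g ⟨h1, h2⟩
    exact ⟨by simp [h1], by simp [h2]⟩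

theorem mem_Z (g : Heis) : g ∈ Z ↔ g.a = 0 ∧ g.b = 0 := Iff.rfl

/-- first generator -/
def x : Heis := ⟨1, 0, 0⟩
/-- second generator -/
def y : Heis := ⟨0, 1, 0⟩
/-- central generator -/
def z : Heis := ⟨0, 0, 1⟩

theorem x_pow (n : ℕ) : x ^ n = ⟨n, 0, 0⟩ := by
  induction n with
  | zero => rfl
  | succ n ih => rw [pow_succ, ih]; ext <;> simp [x]

theorem y_pow (n : ℕ) : y ^ n = ⟨0, n, 0⟩ := by
  induction n with
  | zero => rfl
  | succ n ih => rw [pow_succ, ih]; ext <;> simp [y]

theorem z_pow (n : ℕ) : z ^ n = ⟨0, 0, n⟩ := by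
  induction n with
  | zero => rfl
  | succ n ih => rw [pow_succ, ih]; ext <;> simp [z]

theorem x_zpow (n : ℤ) : x ^ n = ⟨n, 0, 0⟩ := by
  obtain ⟨m, rfl | rfl⟩ := n.eq_nat_or_neg
  · rw [zpow_natCast, x_pow]
  · rw [zpow_neg, zpow_natCast, x_pow]; ext <;> simp

theorem y_zpow (n : ℤ) : y ^ n = ⟨0, n, 0⟩ := by
  obtain ⟨m, rfl | rfl⟩ := n.eq_nat_or_neg
  · rw [zpow_natCast, y_pow]
  · rw [zpow_neg, zpow_natCast, y_pow]; ext <;> simp

theorem z_zpow (n : ℤ) : z ^ n = ⟨0, 0, n⟩ := by
  obtain ⟨m, rfl | rfl⟩ := n.eq_nat_or_neg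
  · rw [zpow_natCast, z_pow]
  · rw [zpow_neg, zpow_natCast, z_pow]; ext <;> simp

theorem xy_gen (S : Subgroup Heis) (hx : x ∈ S) (hy : y ∈ S) (g : Heis) : g ∈ S := by
  have hz : z ∈ S := by
    have : z = x * y * x⁻¹ * y⁻¹ := by ext <;> simp [x, y, z]
    rw [this]
    exact S.mul_mem (S.mul_mem (S.mul_mem hx hy) (S.inv_mem hx)) (S.inv_mem hy)
  have : g = y ^ g.b * x ^ g.a * z ^ g.c := by
    rw [x_zpow, y_zpow, z_zpow]; ext <;> simp
  rw [this]
  exact S.mul_mem (S.mul_mem (S.zpow_mem hy _) (S.zpow_mem hx _)) (S.zpow_mem hz _)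

/-- the generating set `{x, y}` -/
def gens : Finset Heis := {x, y}

theorem gens_closure : Subgroup.closure (gens : Set Heis) = ⊤ := by
  rw [eq_top_iff]
  intro g _
  apply xy_gen
  · exact Subgroup.subset_closure (by simp [gens])
  · exact Subgroup.subset_closure (by simp [gens])

theorem Z_eq_center : Z = Subgroup.center Heis := by
  apply le_antisymm
  · rintro g ⟨h1, h2⟩
    rw [Subgroup.mem_center_iff]
    intro h
    ext <;> simp [h1, h2]
    ring
  · intro g hg
    rw [Subgroup.mem_center_iff] at hg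
    have h1 := congrArg Heis.c (hg x)
    have h2 := congrArg Heis.c (hg y)
    simp [x, y] at h1 h2
    exact ⟨by omega, by omega⟩

theorem Z_eq_zpowers : Z = Subgroup.zpowers z := by
  apply le_antisymm
  · rintro g ⟨h1, h2⟩
    rw [Subgroup.mem_zpowers_iff]
    exact ⟨g.c, by rw [z_zpow]; ext <;> simp [h1, h2]⟩
  · rw [Subgroup.zpowers_le]
    exact ⟨rfl, rfl⟩

end Heis

open Heis

/-! ### The pair is not strongly coset automatic -/

theorem val_cons {G : Type} [Group G] {X : Finset G} (a : Letter X) (w : List (Letter X)) :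
    val (a :: w) = a.1 * val w := by simp [val]

@[simp] theorem val_nil {G : Type} [Group G] {X : Finset G} :
    val ([] : List (Letter X)) = 1 := rfl

theorem val_append {G : Type} [Group G] {X : Finset G} (v w : List (Letter X)) :
    val (v ++ w) = val v * val w := by simp [val]

theorem exists_word {G : Type} [Group G] {X : Finset G} (hX : Subgroup.closure (X : Set G) = ⊤)
    (g : G) : ∃ w : List (Letter X), val w = g := by
  have hg : g ∈ Subgroup.closure (X : Set G) := by rw [hX]; trivial
  induction hg using Subgroup.closure_induction with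
  | mem x hx => exact ⟨[⟨x, Or.inl hx⟩], by simp [val]⟩
  | one => exact ⟨[], rfl⟩
  | mul x y _ _ hx hy =>
    obtain ⟨v, rfl⟩ := hx
    obtain ⟨w, rfl⟩ := hy
    exact ⟨v ++ w, val_append v w⟩
  | inv x _ hx =>
    obtain ⟨v, rfl⟩ := hx
    clear * -
    induction v with
    | nil => exact ⟨[], by simp [val]⟩
    | cons a v ih =>
      obtain ⟨w, hw⟩ := ih
      have ha : a.1⁻¹ ∈ X ∨ a.1⁻¹⁻¹ ∈ X := by
        rcases a.2 with h | h
        · right; simpa using h
        · left; exact h
      refine ⟨w ++ [⟨a.1⁻¹, ha⟩], ?_⟩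
      rw [val_append, hw, val_cons a v, mul_inv_rev]; simp [val]

theorem val_flatten {G : Type} [Group G] {X : Finset G} (w : List (Letter X)) (n : ℕ) :
    val (List.replicate n w).flatten = val w ^ n := by
  induction n with
  | zero => simp [val]
  | succ n ih => rw [List.replicate_succ, List.flatten_cons, val_append, ih, pow_succ']

theorem not_strong (X : Finset Heis) (hX : Subgroup.closure (X : Set Heis) = ⊤) :
    ¬ StronglyCosetAutomatic X Z := by
  rintro ⟨σ, _, W, K, hrep, hft⟩
  -- the ball of radius `K` is finite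
  have hfin : {g : Heis | Near X K 1 g}.Finite := by
    have h1 : Finite (Letter X) := by
      have : {g : Heis | g ∈ X ∨ g⁻¹ ∈ X}.Finite :=
        X.finite_toSet.union (X.finite_toSet.preimage (inv_injective.injOn))
      exact this.to_subtype
    apply ((List.finite_length_le (Letter X) K).image val).subset
    rintro g ⟨l, hl, hg⟩
    exact ⟨l, hl, by simpa using hg⟩
  obtain ⟨M, hM⟩ : ∃ M : ℕ, ∀ g : Heis, Near X K 1 g → g.c.natAbs ≤ M := by
    obtain ⟨M, hM⟩ := (hfin.image (fun g => g.c.natAbs)).bddAbove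
    exact ⟨M, fun g hg => hM ⟨g, hg, rfl⟩⟩
  choose s hs using hrep
  -- one step
  have step : ∀ (g k : Heis) (l : List (Letter X)), l.length ≤ 1 → k = g * val l →
      ∃ m : ℤ, m.natAbs ≤ M ∧ val (s g) * val l = ⟨0, 0, m⟩ * val (s k) := by
    intro g k l hl hk
    have h1 : val (s g) * g⁻¹ ∈ Z := (hs g).2
    have h2 : val (s k) * k⁻¹ ∈ Z := (hs k).2
    have h3 : val (s g) * val l * (val (s k))⁻¹ ∈ Z := by
      rw [mem_Z] at *
      subst hk
      simp at h1 h2 ⊢
      constructor <;> omega
    have h4 := hft (s g) (hs g).1 (s k) (hs k).1 _ h3 ⟨l, hl, by group⟩ 0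
    have h5 := hM _ (by simpa only [List.take_zero, val_nil, mul_one] using h4)
    refine ⟨_, h5, ?_⟩
    have h6 : val (s g) * val l * (val (s k))⁻¹ =
        ⟨0, 0, (val (s g) * val l * (val (s k))⁻¹).c⟩ := by
      rw [mem_Z] at h3
      ext
      · exact h3.1
      · exact h3.2
      · rfl
    rw [← h6]
    group
  -- many steps
  have many : ∀ (l : List (Letter X)) (g : Heis),
      ∃ m : ℤ, m.natAbs ≤ l.length * M ∧ val (s g) * val l = ⟨0, 0, m⟩ * val (s (g * val l)) := by
    intro l
    induction l with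
    | nil =>
      intro g
      refine ⟨0, by simp, ?_⟩
      have : (⟨0, 0, 0⟩ : Heis) = 1 := rfl
      rw [this]
      simp [val]
    | cons a l ih =>
      intro g
      obtain ⟨m1, h1, h2⟩ := step g (g * a.1) [a] (by simp) (by simp [val])
      obtain ⟨m2, h3, h4⟩ := ih (g * a.1)
      refine ⟨m1 + m2, ?_, ?_⟩
      · rw [List.length_cons, add_mul, one_mul]
        have := Int.natAbs_add_le m1 m2
        omega
      · have h5 : val [a] = a.1 := by simp [val]
        rw [h5] at h2
        rw [val_cons, ← mul_assoc, h2, mul_assoc, h4, ← mul_assoc, ← mul_assoc]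
        congr 1
        ext <;> simp
  obtain ⟨wx, hwx⟩ := exists_word hX x
  obtain ⟨wy, hwy⟩ := exists_word hX y
  obtain ⟨wx', hwx'⟩ := exists_word hX x⁻¹
  obtain ⟨wy', hwy'⟩ := exists_word hX y⁻¹
  set C := wx.length + wy.length + wx'.length + wy'.length with hC
  set n := C * M + M + 1 with hn
  let l : List (Letter X) := (List.replicate n wx).flatten ++ ((List.replicate n wy).flatten ++
    ((List.replicate n wx').flatten ++ (List.replicate n wy').flatten))
  have hl : l.length = n * C := by
    simp only [l, List.length_append, List.length_flatten, List.map_replicate,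
      List.sum_replicate, smul_eq_mul, hC]
    ring
  have hv : val l = ⟨0, 0, (n : ℤ) * n⟩ := by
    simp only [l, val_append, val_flatten, hwx, hwy, hwx', hwy', inv_pow, x_pow, y_pow]
    ext <;> simp
  obtain ⟨m, h1, h2⟩ := many l 1
  obtain ⟨m', h3, h4⟩ := step 1 (1 * 1) [] (by simp) (by simp [val])
  -- compare the representatives of `1` and `z^(n^2)`
  have h5 : ∃ m' : ℤ, m'.natAbs ≤ M ∧ val (s 1) = ⟨0, 0, m'⟩ * val (s (1 * val l)) := by
    have h6 : val (s 1) * (val (s (1 * val l)))⁻¹ ∈ Z := by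
      have e1 : val (s 1) * (1 : Heis)⁻¹ ∈ Z := (hs 1).2
      have e2 : val (s (1 * val l)) * (1 * val l)⁻¹ ∈ Z := (hs (1 * val l)).2
      rw [mem_Z] at *
      rw [hv] at e2 ⊢
      simp at e1 e2 ⊢
      constructor <;> omega
    have h7 := hft (s 1) (hs 1).1 (s (1 * val l)) (hs _).1 _ h6 ⟨[], by simp, by simp [val]⟩ 0
    have h8 := hM _ (by simpa only [List.take_zero, val_nil, mul_one] using h7)
    refine ⟨_, h8, ?_⟩
    have h9 : val (s 1) * (val (s (1 * val l)))⁻¹ =
        ⟨0, 0, (val (s 1) * (val (s (1 * val l)))⁻¹).c⟩ := by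
      rw [mem_Z] at h6
      ext
      · exact h6.1
      · exact h6.2
      · rfl
    rw [← h9]
    group
  obtain ⟨m'', h6, h7⟩ := h5
  have h8 := congrArg Heis.c h2
  have h9 := congrArg Heis.c h7
  have h10 := congrArg Heis.a h7
  rw [hv] at h8 h9 h10
  simp at h8 h9 h10
  have h11 : (n : ℤ) * n = m - m'' := by linarith
  have h12 : n * n ≤ n * C * M + M := by
    have e1 : ((n * n : ℕ) : ℤ) = m - m'' := by push_cast; exact h11
    rw [hl] at h1
    omega
  have h13 : n * n = n * C * M + n * M + n := by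
    nth_rewrite 2 [hn]
    ring
  have h14 : 1 ≤ n := by omega
  nlinarith

/-! ### The pair is coset automatic -/

/-- the horizontal projection of the letters to `ℤ²` -/
def mu (l : Letter gens) : Multiplicative (ℤ × ℤ) := Multiplicative.ofAdd (l.1.a, l.1.b)

/-- admissible successors in the words `x^m y^n` -/
def R (l l' : Letter gens) : Prop := l = l' ∨ (l.1.b = 0 ∧ l'.1.a = 0)

open Classical in
/-- the automaton of the words `x^m y^n` -/
noncomputable def W : DFA (Letter gens) (Option (Option (Letter gens))) where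
  step s a := match s with
    | none => none
    | some none => some (some a)
    | some (some b) => if R b a then some (some a) else none
  start := some none
  accept := {s | s ≠ none}

theorem W_none (w : List (Letter gens)) : W.evalFrom none w = none := by
  induction w with
  | nil => rfl
  | cons a w ih => rw [DFA.evalFrom_cons]; exact ih

theorem W_some (w : List (Letter gens)) : ∀ b, W.evalFrom (some (some b)) w ≠ none ↔
    List.IsChain R (b :: w) := by
  induction w with
  | nil => intro b; simp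
  | cons a w ih =>
    intro b
    rw [DFA.evalFrom_cons, List.isChain_cons_cons]
    by_cases h : R b a
    · have : W.step (some (some b)) a = some (some a) := if_pos h
      rw [this, ih]
      simp [h]
    · have : W.step (some (some b)) a = none := if_neg h
      rw [this, W_none]
      simp [h]

theorem mem_W (w : List (Letter gens)) : w ∈ W.accepts ↔ List.IsChain R w := by
  rw [DFA.mem_accepts]
  cases w with
  | nil => simp [W]
  | cons b w =>
    change W.evalFrom (W.step (some none) b) w ≠ none ↔ _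
    exact W_some w b

/-- the four letters -/
theorem letter_cases (l : Letter gens) : (l.1.a = 1 ∧ l.1.b = 0 ∨ l.1.a = -1 ∧ l.1.b = 0) ∨
    (l.1.a = 0 ∧ l.1.b = 1 ∨ l.1.a = 0 ∧ l.1.b = -1) := by
  obtain ⟨g, hg | hg⟩ := l
  · simp only [gens, Finset.mem_insert, Finset.mem_singleton] at hg
    rcases hg with rfl | rfl
    · simp [x]
    · simp [y]
  · simp only [gens, Finset.mem_insert, Finset.mem_singleton] at hg
    have h : g = x⁻¹ ∨ g = y⁻¹ := by
      rcases hg with h | h
      · left; rw [← h, inv_inv]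
      · right; rw [← h, inv_inv]
    rcases h with rfl | rfl
    · simp [x]
    · simp [y]

/-- clamping -/
def cl (t : ℕ) (n : ℤ) : ℤ := max (-(t : ℤ)) (min (t : ℤ) n)

theorem val_ab (w : List (Letter gens)) :
    ((val w).a, (val w).b) = Multiplicative.toAdd (w.map mu).prod := by
  induction w with
  | nil => rfl
  | cons l w ih =>
    rw [val_cons, List.map_cons, List.prod_cons, toAdd_mul, ← ih]
    rfl

/-- the path of an admissible word in `ℤ²` -/
theorem path (w : List (Letter gens)) (hw : List.IsChain R w) : ∃ a b : ℤ, ∀ t : ℕ,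
    (val (w.take t)).a = cl t a ∧ (val (w.take t)).b = cl (t - a.natAbs) b := by
  induction w with
  | nil => exact ⟨0, 0, fun t => by simp [val, cl]⟩
  | cons l w ih =>
    have hw' : List.IsChain R w := hw.tail
    obtain ⟨a, b, hab⟩ := ih hw'
    have hhead : ((val (w.take 1)).a = 0 ∧ (val (w.take 1)).b = 0) ∨
        ((val (w.take 1)).a = l.1.a ∧ (val (w.take 1)).b = l.1.b) ∨
        (l.1.b = 0 ∧ (val (w.take 1)).a = 0) := by
      cases w with
      | nil => left; simp [val]
      | cons l' w =>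
        rw [List.isChain_cons_cons] at hw
        rcases hw.1 with h | ⟨h1, h2⟩
        · right; left; subst h; simp [val]
        · right; right; exact ⟨h1, by simpa [val] using h2⟩
    obtain ⟨h1a, h1b⟩ := hab 1
    rw [h1a, h1b] at hhead
    have hstep : ∀ t : ℕ, (val ((l :: w).take (t + 1))).a = l.1.a + cl t a ∧
        (val ((l :: w).take (t + 1))).b = l.1.b + cl (t - a.natAbs) b := by
      intro t
      rw [List.take_succ_cons, val_cons]
      simp [hab t]
    rcases letter_cases l with hl | hl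
    · -- horizontal letter
      refine ⟨a + l.1.a, b, fun t => ?_⟩
      cases t with
      | zero =>
        simp only [cl, List.take_zero, val, List.map_nil, List.prod_nil, one_a, one_b]
        constructor <;> omega
      | succ t =>
        rw [(hstep t).1, (hstep t).2]
        simp only [cl] at *
        constructor <;> omega
    · -- vertical letter
      refine ⟨0, b + l.1.b, fun t => ?_⟩
      cases t with
      | zero =>
        simp only [cl, List.take_zero, val, List.map_nil, List.prod_nil, one_a, one_b]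
        constructor <;> omega
      | succ t =>
        rw [(hstep t).1, (hstep t).2]
        simp only [cl] at *
        constructor <;> omega

theorem cl_fellow (t : ℕ) (p q p' q' d e : ℤ) (h1 : p + d = p') (h2 : q + e = q')
    (h3 : -1 ≤ d ∧ d ≤ 1) (h4 : -1 ≤ e ∧ e ≤ 1) :
    (-2 ≤ -cl t p + cl t p' ∧ -cl t p + cl t p' ≤ 2) ∧
    (-2 ≤ -cl (t - p.natAbs) q + cl (t - p'.natAbs) q' ∧
      -cl (t - p.natAbs) q + cl (t - p'.natAbs) q' ≤ 2) := by
  subst h1 h2
  have key : ∀ (s s' : ℕ) (q e : ℤ), -1 ≤ e → e ≤ 1 → s ≤ s' + 1 → s' ≤ s + 1 →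
      -2 ≤ -cl s q + cl s' (q + e) ∧ -cl s q + cl s' (q + e) ≤ 2 := by
    intro s s' q e h1 h2 h3 h4
    unfold cl
    omega
  refine ⟨key t t p d h3.1 h3.2 (by omega) (by omega), key _ _ q e h4.1 h4.2 ?_ ?_⟩
  · omega
  · omega

theorem cl_big (a : ℤ) (t : ℕ) (h : a.natAbs ≤ t) : cl t a = a := by
  unfold cl
  omega

/-- fellow traveller property in `ℤ²` -/
theorem fellow (u v : List (Letter gens)) (hu : u ∈ W.accepts) (hv : v ∈ W.accepts)
    (a : Option (Letter gens)) (h : (u.map mu).prod * (a.toList.map mu).prod = (v.map mu).prod)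
    (t : ℕ) : ((u.take t).map mu).prod⁻¹ * ((v.take t).map mu).prod ∈
      (Multiplicative.toAdd ⁻¹' (Set.Icc ((-2 : ℤ), (-2 : ℤ)) (2, 2)) :
        Set (Multiplicative (ℤ × ℤ))) := by
  obtain ⟨p, q, hpq⟩ := path u ((mem_W u).1 hu)
  obtain ⟨p', q', hpq'⟩ := path v ((mem_W v).1 hv)
  have h1 := hpq (u.length + p.natAbs + q.natAbs)
  have h2 := hpq' (v.length + p'.natAbs + q'.natAbs)
  rw [List.take_of_length_le (by omega)] at h1 h2
  have h3 : (val u).a + (val a.toList).a = (val v).a ∧
      (val u).b + (val a.toList).b = (val v).b := by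
    have e := congrArg Multiplicative.toAdd h
    rw [toAdd_mul, ← val_ab, ← val_ab, ← val_ab] at e
    exact ⟨congrArg Prod.fst e, congrArg Prod.snd e⟩
  have h4 : (-1 ≤ (val a.toList).a ∧ (val a.toList).a ≤ 1) ∧
      (-1 ≤ (val a.toList).b ∧ (val a.toList).b ≤ 1) ∧
      ((val a.toList).a = 0 ∨ (val a.toList).b = 0) := by
    cases a with
    | none => simp [val]
    | some l =>
      have := letter_cases l
      simp only [Option.toList_some, val, List.map_cons, List.map_nil, List.prod_cons,
        List.prod_nil, mul_one]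
      omega
  obtain ⟨h5, h6⟩ := hpq t
  obtain ⟨h7, h8⟩ := hpq' t
  rw [cl_big _ _ (by omega), cl_big _ _ (by omega)] at h1 h2
  rw [h1.1, h1.2, h2.1, h2.2] at h3
  have h9 := cl_fellow t p q p' q' _ _ h3.1 h3.2 h4.1 h4.2.1
  rw [Set.mem_preimage, toAdd_mul, toAdd_inv, ← val_ab, ← val_ab]
  rw [h5, h6, h7, h8, Set.mem_Icc, Prod.le_def, Prod.le_def]
  exact ⟨⟨h9.1.1, h9.2.1⟩, ⟨h9.1.2, h9.2.2⟩⟩

theorem pad_inj {α : Type} {u v u' v' : List α} (h : pad u v = pad u' v') : u = u' ∧ v = v' := by
  have h1 := Pool.Agent.Helper943.LM.padz_fst u v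
  have h2 := Pool.Agent.Helper943.LM.padz_fst u' v'
  have h3 := Pool.Agent.Helper943.LM.padz_snd u v
  have h4 := Pool.Agent.Helper943.LM.padz_snd u' v'
  have e : Pool.Agent.Helper943.LM.padz u v = Pool.Agent.Helper943.LM.padz u' v' := h
  rw [e] at h1 h3
  exact ⟨h1.symm.trans h2, h3.symm.trans h4⟩

theorem chain_rep (l l' : Letter gens) (h : l.1.b = 0) (h' : l'.1.a = 0) (m n : ℕ) :
    List.IsChain R (List.replicate m l ++ List.replicate n l') := by
  rw [List.isChain_append]
  refine ⟨?_, ?_, ?_⟩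
  · exact List.isChain_replicate_of_rel m (Or.inl rfl)
  · exact List.isChain_replicate_of_rel n (Or.inl rfl)
  · intro p hp q hq
    have hp' := List.eq_of_mem_replicate (List.mem_of_getLast? hp)
    have hq' := List.eq_of_mem_replicate (List.mem_of_head? hq)
    subst hp' hq'
    exact Or.inr ⟨h, h'⟩

theorem val_replicate {G : Type} [Group G] {X : Finset G} (l : Letter X) (n : ℕ) :
    val (List.replicate n l) = l.1 ^ n := by simp [val]

theorem reach (a b : ℤ) : ∃ w ∈ W.accepts, (val w).a = a ∧ (val w).b = b := by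
  have hx : ∃ (l : Letter gens) (m : ℕ), l.1.b = 0 ∧ l.1 ^ m = ⟨a, 0, 0⟩ := by
    obtain ⟨m, rfl | rfl⟩ := a.eq_nat_or_neg
    · exact ⟨⟨x, Or.inl (by simp [gens])⟩, m, rfl, x_pow m⟩
    · refine ⟨⟨x⁻¹, Or.inr (by simp [gens])⟩, m, rfl, ?_⟩
      change (x⁻¹) ^ m = _
      rw [inv_pow, x_pow]
      ext <;> simp
  have hy : ∃ (l : Letter gens) (m : ℕ), l.1.a = 0 ∧ l.1 ^ m = ⟨0, b, 0⟩ := by
    obtain ⟨m, rfl | rfl⟩ := b.eq_nat_or_neg
    · exact ⟨⟨y, Or.inl (by simp [gens])⟩, m, rfl, y_pow m⟩
    · refine ⟨⟨y⁻¹, Or.inr (by simp [gens])⟩, m, rfl, ?_⟩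
      change (y⁻¹) ^ m = _
      rw [inv_pow, y_pow]
      ext <;> simp
  obtain ⟨l, m, h1, h2⟩ := hx
  obtain ⟨l', n, h3, h4⟩ := hy
  refine ⟨List.replicate m l ++ List.replicate n l', (mem_W _).2 (chain_rep l l' h1 h3 m n), ?_⟩
  rw [val_append, val_replicate, val_replicate, h2, h4]
  simp

theorem cosetAutomatic : CosetAutomatic gens Z := by
  classical
  have hfinL : Finite (Letter gens) := by
    have : {g : Heis | g ∈ gens ∨ g⁻¹ ∈ gens}.Finite :=
      gens.finite_toSet.union (gens.finite_toSet.preimage (inv_injective.injOn))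
    exact this.to_subtype
  let _ : Fintype (Letter gens) := Fintype.ofFinite _
  refine ⟨Option (Option (Letter gens)), inferInstance, W, ?_, ?_⟩
  · intro g
    obtain ⟨w, hw, h1, h2⟩ := reach g.a g.b
    refine ⟨w, hw, ?_⟩
    rw [SameCoset, mem_Z]
    simp [h1, h2]
  · intro a
    obtain ⟨τ, hτ, M, hM⟩ := Pool.Agent.Helper943.LM.autoLemma mu W (a.toList.map mu).prod
      (Multiplicative.toAdd ⁻¹' (Set.Icc ((-2 : ℤ), (-2 : ℤ)) (2, 2)))
      ((Set.finite_Icc _ _).preimage (Multiplicative.toAdd.injective.injOn))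
      (fun u v hu hv h t => fellow u v hu hv a h t)
    refine ⟨τ, hτ, M, fun v w => ?_⟩
    have key : SameCoset Z (val v * val a.toList) (val w) ↔
        (v.map mu).prod * (a.toList.map mu).prod = (w.map mu).prod := by
      rw [SameCoset, mem_Z, ← Multiplicative.toAdd.injective.eq_iff, toAdd_mul, ← val_ab,
        ← val_ab, ← val_ab, Prod.ext_iff]
      simp only [mul_a, mul_b, inv_a, inv_b, Prod.fst_add, Prod.snd_add]
      constructor <;> rintro ⟨h1, h2⟩ <;> constructor <;> omega
    rw [hM]
    constructor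
    · rintro ⟨v', w', hv, hw, hp, h⟩
      obtain ⟨rfl, rfl⟩ := pad_inj hp
      exact ⟨hv, hw, key.2 h⟩
    · rintro ⟨hv, hw, h⟩
      exact ⟨v, w, hv, hw, rfl, key.1 h⟩

/-- There are a group `G` and a subgroup `H` of `G` such that `(G, H)` is coset automatic with
respect to some finite generating set but strongly coset automatic with respect to none.
Moreover `H` can be infinite cyclic and equal to the centre of `G`. -/
theorem result : ∃ (G : Type) (_ : Group G) (H : Subgroup G),
    (∃ X : Finset G, Subgroup.closure (X : Set G) = ⊤ ∧ CosetAutomatic X H) ∧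
    (∀ X : Finset G, Subgroup.closure (X : Set G) = ⊤ → ¬ StronglyCosetAutomatic X H) ∧
    H = Subgroup.center G ∧ (∃ z : G, H = Subgroup.zpowers z) ∧ Infinite H := by
  refine ⟨Heis, inferInstance, Z, ⟨gens, gens_closure, cosetAutomatic⟩, not_strong, Z_eq_center,
    ⟨z, Z_eq_zpowers⟩, ?_⟩
  apply Infinite.of_injective (fun n : ℤ => (⟨⟨0, 0, n⟩, rfl, rfl⟩ : Z))
  intro m n h
  exact congrArg (fun g : Z => g.1.c) h

end Pool.Agent.Results.MP_6b1724_al.HeisenbergCentre
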